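import Pool.Agent.N333.Tr
import Pool.Agent.N333.Cn

/-!
# Digit changes outside of sums of boundedly many `S`-units

No hypothesis is assumed.  Let `x = ∑ g_k b ^ (-k)` be a real algebraic irrational number, with
bounded integers `g_k` (for instance the binary digits of `√2`), and let `q_0, …, q_m, e` be integers
with `∑ q_j b ^ j ≠ 0` (for instance `q_0 = -1`, `q_1 = 1`, `e = 0`: then the relation
`∑ q_j g_{k+j} = e` says that the digits `k` and `k + 1` are equal).  Let `S` be a finite set of primes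
and `R`, `c` be fixed.  Then, for large `N` and `log log N ≤ τ ≤ c₀ √(log N)`, the relation fails for at
least `c₀ (log N) ^ 3 / (τ ^ 4 log log N)` numbers `k ≤ N` which are not within `e ^ τ` of any sum of
`R` terms `a ∏ p ^ e_p` with integers `|a| ≤ e ^ τ` and `|e_p| ≤ c log N`.  One may also leave out any set
`E` of at most `e ^ τ` numbers `k`, each of which is within `k N ^ (-η)` of such a sum with coefficients
`|a| ≤ N ^ δ`.
For `τ = A log log N` the bound is `(log N) ^ 3 / (log log N) ^ 5`, up to a constant.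

Proof.  The exceptional positions contain, for many primes `q`, long approximate geometric progressions
of ratio `Q = q ^ (-F)`: numbers `z_k` with `Q ^ (-k) z_k` almost constant, `k ≤ K`, where `Q ^ K` is a
power of `N`.  By the theorem `UL` below, which is uniform in `q`, only a small proportion of the terms
of such a progression are close to sums of few `S`-units: otherwise there would be two terms whose
indices differ by `t` and two whose indices differ by `R t`, for which the approximations are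
proportional; the approximations are germs, polynomials in finitely many variables which stand for
the values of the units at different scales, hence (an identity in the group ring of an ordered
group) they are themselves proportional to a unit, and this is not possible for both `t` and `R t`, as
`Q` is prime to `S`.  The progressions with the exceptional terms removed still make a graph with
few short cycles, which gives the bound.
-/

set_option autoImplicit false

namespace Pool.Agent.Results.MP_0308e6_nt.OutsideUnitSums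

open Finset Filter
open Pool.Agent.N333.Ge (Nr)

/-- `k` is at distance at most `T` from a sum of `R` terms `a ∏ p ^ e_p` (the product over `p` in `S`),
where the `a` are integers with `|a| ≤ A` and the `e_p` are integers, positive or negative, with
`|e_p| ≤ B` -/
def Near (S : Finset ℕ) (R : ℕ) (A B T : ℝ) (k : ℕ) : Prop :=
  ∃ (a : Fin R → ℤ) (e : Fin R → ℕ → ℤ), (∀ i, |(a i : ℝ)| ≤ A) ∧
    (∀ i, ∀ p ∈ S, |(e i p : ℝ)| ≤ B) ∧
    |(k : ℝ) - ∑ i, (a i : ℝ) * ∏ p ∈ S, (p : ℝ) ^ e i p| ≤ T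

lemma near_nr {S : Finset ℕ} {R : ℕ} {A B T c D η X : ℝ} {k : ℕ} (hA : A ≤ Real.exp D)
    (hB : B ≤ c * X) (hcX : 0 ≤ c * X) (hT : T ≤ Real.exp (-(η * X)) * k)
    (h : Near S R A B T k) : Nr S (R + 1) c D η X k := by
  obtain ⟨a, e, h1, h2, h3⟩ := h
  refine ⟨Fin.cons 0 a, Fin.cons (fun _ => 0) e, ?_, ?_, ?_⟩
  · intro i
    refine Fin.cases ?_ (fun j => ?_) i
    · simp only [Fin.cons_zero, Int.cast_zero, abs_zero]
      positivity
    · simp only [Fin.cons_succ]
      exact (h1 j).trans hA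
  · intro i p hp
    refine Fin.cases ?_ (fun j => ?_) i
    · simp only [Fin.cons_zero, Int.cast_zero, abs_zero]
      exact hcX
    · simp only [Fin.cons_succ]
      exact (h2 j p hp).trans hB
  · rw [Fin.sum_univ_succ]
    simp only [Fin.cons_zero, Int.cast_zero, zero_mul, Fin.cons_succ, zero_add]
    exact h3.trans hT

/-- the sizes add up -/
lemma sizes {τ C w o e1 e2 x : ℝ} (hτ : 1 ≤ τ) (hw : 1 ≤ w) (hC : C = 2 * w + 5)
    (hx : x ≤ Real.exp τ) (hx0 : 0 ≤ x) (ho : o < x ^ 3) (h1 : e1 ≤ Real.exp τ)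
    (h2 : e2 ≤ Real.exp (2 * τ * w)) : o + e1 + e2 + 2 < Real.exp (C * τ) := by
  have a0 : Real.exp ((2 * w + 1) * τ) * 4 < Real.exp (C * τ) := by
    have b1 : C * τ = (2 * w + 1) * τ + 4 * τ := by rw [hC]; ring
    rw [b1, Real.exp_add]
    apply mul_lt_mul_of_pos_left _ (Real.exp_pos _)
    have := Real.add_one_le_exp (4 * τ)
    linarith
  have a1 : x ^ 3 ≤ Real.exp ((2 * w + 1) * τ) := by
    calc x ^ 3 ≤ (Real.exp τ) ^ 3 := pow_le_pow_left₀ hx0 hx 3
      _ = Real.exp (3 * τ) := by rw [← Real.exp_nat_mul]; norm_num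
      _ ≤ _ := Real.exp_le_exp.2 (by nlinarith)
  have a2 : Real.exp τ ≤ Real.exp ((2 * w + 1) * τ) := Real.exp_le_exp.2 (by nlinarith)
  have a3 : Real.exp (2 * τ * w) ≤ Real.exp ((2 * w + 1) * τ) := Real.exp_le_exp.2 (by nlinarith)
  have a4 : 2 ≤ Real.exp τ := by
    have := Real.add_one_le_exp τ
    linarith
  linarith

open Classical in
lemma few (S : Finset ℕ) (R N : ℕ) (c τ x : ℝ) (hτ : 2 ≤ τ) (hx : x ≤ Real.exp τ)
    (hc : 2 * |c| + 1 ≤ x) :
    (((Icc 1 N).filter (fun k : ℕ => Near S R (Real.exp τ) (c * x) (Real.exp τ) k)).card : ℝ) ≤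
      Real.exp (2 * τ * ((R : ℝ) + S.card * R + 1)) := by
  have hx1 : 1 ≤ x := by
    have := abs_nonneg c
    linarith
  obtain ⟨m, hm⟩ : ∃ m : ℕ, m = ⌊Real.exp τ⌋₊ := ⟨_, rfl⟩
  obtain ⟨L, hL⟩ : ∃ L : ℕ, L = ⌊|c| * x⌋₊ := ⟨_, rfl⟩
  have h1 : Real.exp τ < m + 1 := by rw [hm]; exact Nat.lt_floor_add_one _
  have h2 : c * x < L + 1 := by
    have h3 : |c| * x < L + 1 := by rw [hL]; exact Nat.lt_floor_add_one _
    have h4 : c * x ≤ |c| * x := mul_le_mul_of_nonneg_right (le_abs_self c) (by linarith)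
    linarith
  have h5 : (m : ℝ) ≤ Real.exp τ := by rw [hm]; exact Nat.floor_le (Real.exp_pos _).le
  have h6 : (L : ℝ) ≤ |c| * x := by rw [hL]; exact Nat.floor_le (by positivity)
  have hcnt : ((Icc 1 N).filter (fun k : ℕ => Near S R (Real.exp τ) (c * x) (Real.exp τ) k)).card ≤
      (2 * m + 1) ^ R * ((2 * L + 1) ^ S.card) ^ R * (2 * m + 2) :=
    Pool.Agent.N333.Cn.count S R N m L (Real.exp τ) (c * x) (Real.exp τ) h1 h2 h1
  have hcnt' : (((Icc 1 N).filter (fun k : ℕ => Near S R (Real.exp τ) (c * x) (Real.exp τ) k)).card : ℝ)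
      ≤ (2 * (m : ℝ) + 1) ^ R * ((2 * (L : ℝ) + 1) ^ S.card) ^ R * (2 * m + 2) := by
    exact_mod_cast hcnt
  refine hcnt'.trans ?_
  have e2 : Real.exp (2 * τ) = Real.exp τ * Real.exp τ := by rw [← Real.exp_add]; ring_nf
  have he : 3 ≤ Real.exp τ := by
    have := Real.add_one_le_exp τ
    linarith
  have h7 : 2 * (m : ℝ) + 2 ≤ Real.exp (2 * τ) := by
    rw [e2]
    nlinarith
  have h8 : 2 * (m : ℝ) + 1 ≤ Real.exp (2 * τ) := by linarith
  have h9 : 2 * (L : ℝ) + 1 ≤ Real.exp (2 * τ) := by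
    rw [e2]
    calc 2 * (L : ℝ) + 1 ≤ (2 * |c| + 1) * x := by
          have := abs_nonneg c
          nlinarith
      _ ≤ x * x := mul_le_mul_of_nonneg_right hc (by linarith)
      _ ≤ Real.exp τ * Real.exp τ := mul_le_mul hx hx (by linarith) (Real.exp_pos _).le
  have h10 : (2 * (m : ℝ) + 1) ^ R * ((2 * (L : ℝ) + 1) ^ S.card) ^ R * (2 * m + 2) ≤
      (Real.exp (2 * τ)) ^ R * ((Real.exp (2 * τ)) ^ S.card) ^ R * Real.exp (2 * τ) := by
    gcongr
  refine h10.trans (le_of_eq ?_)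
  rw [← pow_mul, ← pow_add, ← pow_succ, ← Real.exp_nat_mul]
  congr 1
  push_cast
  ring

open Classical in
/-- The result. -/
theorem result (x : ℝ) (hx : IsAlgebraic ℚ x) (hirr : Irrational x) (b : ℕ) (hb : 2 ≤ b)
    (g : ℕ → ℤ) (M : ℤ) (hg : ∀ k, |g k| ≤ M)
    (hsum : HasSum (fun k : ℕ => (g k : ℝ) / (b : ℝ) ^ k) x)
    (m : ℕ) (q : ℕ → ℤ) (hq : ∑ j ∈ range (m + 1), q j * (b : ℤ) ^ j ≠ 0) (e : ℤ)
    (S : Finset ℕ) (hS : ∀ p ∈ S, p.Prime) (R : ℕ) (c η : ℝ) (hη : 0 < η) :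
    ∃ c₀ : ℝ, 0 < c₀ ∧ ∃ δ : ℝ, 0 < δ ∧ ∃ N₀ : ℕ, ∀ N : ℕ, N₀ ≤ N → ∀ τ : ℝ,
      Real.log (Real.log N) ≤ τ → τ ≤ c₀ * √(Real.log N) →
      ∀ E : Finset ℕ, (E.card : ℝ) ≤ Real.exp τ →
        (∀ k ∈ E, k ≤ N → N ≤ k ^ 2 →
          Near S R ((N : ℝ) ^ δ) (c * Real.log N) (k / (N : ℝ) ^ η) k) →
        c₀ * (Real.log N) ^ 3 / (τ ^ 4 * Real.log (Real.log N)) ≤
          (((Icc 1 N).filter (fun k : ℕ => ∑ j ∈ range (m + 1), q j * g (k + j) ≠ e ∧ k ∉ E ∧
            ¬ Near S R (Real.exp τ) (c * Real.log N) (Real.exp τ) k)).card : ℝ) := by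
  obtain ⟨r, M', hM', hs⟩ := Pool.Agent.N333.Tr.shifts x b hb g M hg hsum m q e
  have halg' : IsAlgebraic ℚ (((∑ j ∈ range (m + 1), q j * (b : ℤ) ^ j : ℤ) : ℝ) * x + r) := by
    have h1 : IsAlgebraic ℚ (((∑ j ∈ range (m + 1), q j * (b : ℤ) ^ j : ℤ)) : ℝ) :=
      isAlgebraic_intCast (R := ℚ) (A := ℝ) _
    exact (h1.mul hx).add (isAlgebraic_ratCast (R := ℚ) (A := ℝ) r)
  have hirr' : Irrational (((∑ j ∈ range (m + 1), q j * (b : ℤ) ^ j : ℤ) : ℝ) * x + r) :=
    (hirr.intCast_mul hq).add_ratCast r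
  obtain ⟨η', hη'⟩ : ∃ η' : ℝ, η' = min η (1 / 4) := ⟨_, rfl⟩
  have hη'0 : 0 < η' := by rw [hη']; exact lt_min hη (by norm_num)
  have hη'η : η' ≤ η := by rw [hη']; exact min_le_left _ _
  have hη'4 : η' ≤ 1 / 4 := by rw [hη']; exact min_le_right _ _
  obtain ⟨c3, hc3, δ, hδ, N1, hN1⟩ := Pool.Agent.N333.Tr.expans _ halg' hirr' b hb
    (fun k => ∑ j ∈ range (m + 1), q j * g (k + j) - e) M' hM' hs S hS (R + 1) (by omega) |c| η' hη'0
  obtain ⟨w, hw⟩ : ∃ w : ℝ, w = (R : ℝ) + S.card * R + 1 := ⟨_, rfl⟩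
  have hw1 : 1 ≤ w := by
    have : 0 ≤ (R : ℝ) + S.card * R := by positivity
    rw [hw]
    linarith
  obtain ⟨C, hC⟩ : ∃ C : ℝ, C = 2 * w + 5 := ⟨_, rfl⟩
  have hC0 : 0 < C := by rw [hC]; linarith
  have hC1 : 1 ≤ C := by rw [hC]; linarith
  obtain ⟨c₀, hc₀⟩ : ∃ c₀ : ℝ, c₀ = min (min (c3 / C ^ 4) (1 / C)) (min δ (1 / 4)) := ⟨_, rfl⟩
  have hc₀0 : 0 < c₀ := by
    rw [hc₀]
    exact lt_min (lt_min (by positivity) (by positivity)) (lt_min hδ (by norm_num))
  have hc₀1 : c₀ ≤ c3 / C ^ 4 := by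
    rw [hc₀]; exact (min_le_left _ _).trans (min_le_left _ _)
  have hc₀2 : c₀ ≤ 1 / C := by
    rw [hc₀]; exact (min_le_left _ _).trans (min_le_right _ _)
  have hc₀3 : c₀ ≤ δ := by
    rw [hc₀]; exact (min_le_right _ _).trans (min_le_left _ _)
  have hc₀4 : c₀ ≤ 1 / 4 := by
    rw [hc₀]; exact (min_le_right _ _).trans (min_le_right _ _)
  obtain ⟨N2, hN2⟩ := eventually_atTop.1
    ((Real.tendsto_log_atTop.comp (tendsto_natCast_atTop_atTop (R := ℝ))).eventually_ge_atTop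
      (max (Real.exp 2) (2 * |c| + 1)))
  refine ⟨c₀, hc₀0, δ, hδ, max (max N1 N2) 1, fun N hN τ hτ1 hτ2 E hE hEN => ?_⟩
  have hNN1 : N1 ≤ N := le_trans (le_max_left _ _) (le_trans (le_max_left _ _) hN)
  have hNN2 : N2 ≤ N := le_trans (le_max_right _ _) (le_trans (le_max_left _ _) hN)
  have hNpos : 1 ≤ N := le_trans (le_max_right _ _) hN
  have hNr : (0 : ℝ) < N := by exact_mod_cast hNpos
  have h0 := hN2 N hNN2
  simp only [Function.comp] at h0
  obtain ⟨X, hX⟩ : ∃ X : ℝ, X = Real.log N := ⟨_, rfl⟩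
  have h1' := hN1 N hNN1
  rw [← hX] at h0 hτ1 hτ2 h1' hEN ⊢
  have hXe : Real.exp 2 ≤ X := (le_max_left _ _).trans h0
  have hXc : 2 * |c| + 1 ≤ X := (le_max_right _ _).trans h0
  have hX0 : 0 < X := lt_of_lt_of_le (Real.exp_pos _) hXe
  have hX1 : 1 ≤ X := by
    have := Real.add_one_le_exp (2 : ℝ)
    linarith
  have hl2 : 2 ≤ Real.log X := by rwa [Real.le_log_iff_exp_le hX0]
  have hl1 : 1 ≤ Real.log X := by linarith
  have hτ12 : 2 ≤ τ := hl2.trans hτ1
  have hτ11 : 1 ≤ τ := by linarith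
  have hτ0 : 0 < τ := by linarith
  have hXτ : X ≤ Real.exp τ := by
    rw [← Real.exp_log hX0]
    exact Real.exp_le_exp.2 hτ1
  have hNX : (N : ℝ) = Real.exp X := by rw [hX, Real.exp_log hNr]
  have hNδ : ∀ a : ℝ, (N : ℝ) ^ a = Real.exp (a * X) := by
    intro a
    rw [hX, mul_comm a, Real.exp_mul, Real.exp_log hNr]
  have hsq : √X * √X = X := Real.mul_self_sqrt hX0.le
  have hs0 : 0 ≤ √X := Real.sqrt_nonneg _
  have hs1 : 1 ≤ √X := by rw [Real.one_le_sqrt]; exact hX1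
  have hsX : √X ≤ X := by nlinarith
  have hτδ : τ ≤ δ * X :=
    hτ2.trans (mul_le_mul hc₀3 hsX hs0 hδ.le)
  have hτ4 : τ ≤ 1 / 4 * X :=
    hτ2.trans (mul_le_mul hc₀4 hsX hs0 (by norm_num))
  have hCτ : C * τ * (C * τ) ≤ X := by
    have h3 : C * τ ≤ √X := by
      calc C * τ ≤ C * (c₀ * √X) := mul_le_mul_of_nonneg_left hτ2 hC0.le
        _ ≤ C * (1 / C * √X) := by gcongr
        _ = √X := by field_simp
    calc C * τ * (C * τ) ≤ √X * √X := mul_le_mul h3 h3 (by positivity) hs0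
      _ = X := hsq
  obtain ⟨Out, hOut⟩ : ∃ Out : Finset ℕ, Out = (Icc 1 N).filter (fun k : ℕ =>
    ∑ j ∈ range (m + 1), q j * g (k + j) ≠ e ∧ k ∉ E ∧
      ¬ Near S R (Real.exp τ) (c * X) (Real.exp τ) k) := ⟨_, rfl⟩
  rw [← hOut]
  by_cases hcase : X ^ 3 ≤ (Out.card : ℝ)
  · refine le_trans ?_ hcase
    rw [div_le_iff₀ (by positivity)]
    have h4 : 1 ≤ τ ^ 4 * Real.log X := by
      have := one_le_pow₀ (n := 4) hτ11
      nlinarith
    have h5 : 0 < X ^ 3 := by positivity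
    nlinarith
  · rw [not_le] at hcase
    obtain ⟨Ex, hEx⟩ : ∃ Ex : Finset ℕ, Ex = (Icc 1 N).filter (fun k : ℕ =>
      Near S R (Real.exp τ) (c * X) (Real.exp τ) k) := ⟨_, rfl⟩
    have hfew := few S R N c τ X hτ12 hXτ hXc
    rw [← hEx, ← hw] at hfew
    have hcov : (Icc 1 N).filter (fun k : ℕ => ∑ j ∈ range (m + 1), q j * g (k + j) - e ≠ 0) ⊆
        Out ∪ E ∪ Ex := by
      intro k hk
      rw [Finset.mem_filter, sub_ne_zero] at hk
      rw [Finset.mem_union, Finset.mem_union, hOut, hEx, Finset.mem_filter, Finset.mem_filter]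
      by_cases h3 : k ∈ E
      · exact Or.inl (Or.inr h3)
      · by_cases h4 : Near S R (Real.exp τ) (c * X) (Real.exp τ) k
        · exact Or.inr ⟨hk.1, h4⟩
        · exact Or.inl (Or.inl ⟨hk.1, hk.2, h3, h4⟩)
    have hcard : (((Icc 1 N).filter (fun k : ℕ =>
        ∑ j ∈ range (m + 1), q j * g (k + j) - e ≠ 0)).card : ℝ) ≤ Out.card + E.card + Ex.card := by
      have h3 := (Finset.card_le_card hcov).trans (Finset.card_union_le (Out ∪ E) Ex)
      have h5 := h3.trans (Nat.add_le_add_right (Finset.card_union_le Out E) _)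
      exact_mod_cast h5
    have hsz := sizes (C := C) hτ11 hw1 hC hXτ hX0.le hcase hE hfew
    have hmain := h1' (C * τ) (by nlinarith) hCτ (by linarith)
    have hconst : c₀ * X ^ 3 / (τ ^ 4 * Real.log X) ≤
        c3 * X ^ 3 / ((C * τ) ^ 4 * Real.log X) := by
      have h3 : c3 * X ^ 3 / ((C * τ) ^ 4 * Real.log X) =
          (c3 / C ^ 4) * X ^ 3 / (τ ^ 4 * Real.log X) := by
        rw [mul_pow]
        field_simp
      rw [h3]
      gcongr
    refine hconst.trans (hmain.trans ?_)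
    have hle : ((Icc 1 N).filter (fun k : ℕ => ∑ j ∈ range (m + 1), q j * g (k + j) - e ≠ 0 ∧
        N ≤ k * k ∧ ¬ Nr S (R + 1) |c| (δ * X) η' X k)).card ≤ Out.card := by
      apply Finset.card_le_card
      intro k hk
      rw [Finset.mem_filter, sub_ne_zero] at hk
      obtain ⟨hkI, hkq, hkN, hkn⟩ := hk
      have hkIc := Finset.mem_Icc.1 hkI
      have hcX : c * X ≤ |c| * X := mul_le_mul_of_nonneg_right (le_abs_self c) hX0.le
      have hcX0 : 0 ≤ |c| * X := by positivity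
      have hk0 : (0 : ℝ) < k := by exact_mod_cast hkIc.1
      rw [hOut, Finset.mem_filter]
      refine ⟨hkI, hkq, fun hkE => hkn ?_, fun hkn' => hkn ?_⟩
      · refine near_nr ?_ hcX hcX0 ?_ (hEN k hkE hkIc.2 (by rw [pow_two]; exact hkN))
        · rw [hNδ]
        · rw [hNδ, div_eq_mul_inv, mul_comm, ← Real.exp_neg]
          refine mul_le_mul_of_nonneg_right (Real.exp_le_exp.2 ?_) hk0.le
          have := mul_le_mul_of_nonneg_right hη'η hX0.le
          linarith
      · refine near_nr (Real.exp_le_exp.2 hτδ) hcX hcX0 ?_ hkn'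
        have h5 : Real.exp (X / 2) ≤ k := by
          have h6 : Real.exp (X / 2) * Real.exp (X / 2) ≤ (k : ℝ) * k := by
            rw [← Real.exp_add, add_halves, ← hNX]
            exact_mod_cast hkN
          exact (mul_self_le_mul_self_iff (Real.exp_pos _).le hk0.le).2 h6
        calc Real.exp τ ≤ Real.exp (-(η' * X)) * Real.exp (X / 2) := by
              rw [← Real.exp_add]
              apply Real.exp_le_exp.2
              have h7 : η' * X ≤ 1 / 4 * X := mul_le_mul_of_nonneg_right hη'4 hX0.le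
              linarith
          _ ≤ Real.exp (-(η' * X)) * k := mul_le_mul_of_nonneg_left h5 (Real.exp_pos _).le
    exact_mod_cast hle

end Pool.Agent.Results.MP_0308e6_nt.OutsideUnitSums
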